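import Pool.Agent.H124R2.Heesch.Defs

set_option linter.unusedSectionVars false

namespace Pool.Agent.H124R2.Heesch

open Set Metric

variable {n : ℕ} [NeZero n]

lemma e_apply (i : Fin n) : (e : E n) i = if i = 0 then 1 else 0 := by
  simp [e]

lemma e_zero : (e : E n) 0 = 1 := by simp [e_apply]

lemma e_ne {i : Fin n} (h : i ≠ 0) : (e : E n) i = 0 := by simp [e_apply, h]

lemma norm_e : ‖(e : E n)‖ = 1 := by simp [e]

lemma w_pos (i : Fin n) : 1 / 16 ≤ w i := by
  unfold w; split_ifs <;> norm_num

lemma w_le (i : Fin n) : w i ≤ 1 / 8 := by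
  unfold w; split_ifs <;> norm_num

lemma w_zero : w (0 : Fin n) = 1 / 16 := by simp [w]

lemma w_ne {i : Fin n} (h : i ≠ 0) : w i = 1 / 8 := by simp [w, h]

/-- the open box is contained in the interior of the box -/
lemma isClosed_box (a b : Fin n → ℝ) : IsClosed (Box a b) := by
  unfold Box
  simp only [Set.ofPred_forall]
  refine isClosed_iInter fun i => ?_
  have h1 : Continuous fun x : E n => x i := by fun_prop
  exact (isClosed_le continuous_const h1).inter (isClosed_le h1 continuous_const)

def OBox (a b : Fin n → ℝ) : Set (E n) := {x | ∀ i, a i < x i ∧ x i < b i}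

lemma isOpen_obox (a b : Fin n → ℝ) : IsOpen (OBox a b) := by
  unfold OBox
  simp only [Set.ofPred_forall]
  refine isOpen_iInter_of_finite fun i => ?_
  have h1 : Continuous fun x : E n => x i := by fun_prop
  exact (isOpen_lt continuous_const h1).inter (isOpen_lt h1 continuous_const)

lemma obox_subset_interior (a b : Fin n → ℝ) : OBox a b ⊆ interior (Box a b) :=
  interior_maximal (fun _ hx i => ⟨(hx i).1.le, (hx i).2.le⟩) (isOpen_obox a b)

lemma convex_box (a b : Fin n → ℝ) : Convex ℝ (Box a b) := by
  intro x hx y hy s t hs ht hst i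
  have h1 := hx i
  have h2 := hy i
  simp only [PiLp.add_apply, PiLp.smul_apply, smul_eq_mul]
  have ha : a i = s * a i + t * a i := by rw [← add_mul, hst, one_mul]
  have hb : b i = s * b i + t * b i := by rw [← add_mul, hst, one_mul]
  constructor
  · linarith [mul_le_mul_of_nonneg_left h1.1 hs, mul_le_mul_of_nonneg_left h2.1 ht]
  · linarith [mul_le_mul_of_nonneg_left h1.2 hs, mul_le_mul_of_nonneg_left h2.2 ht]

lemma nonempty_obox {a b : Fin n → ℝ} (h : ∀ i, a i < b i) : (OBox a b).Nonempty := by
  refine ⟨WithLp.toLp 2 fun i => (a i + b i) / 2, fun i => ?_⟩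
  have := h i
  simp only
  constructor <;> linarith

lemma closure_interior_box {a b : Fin n → ℝ} (h : ∀ i, a i < b i) :
    closure (interior (Box a b)) = Box a b := by
  rw [(convex_box a b).closure_interior_eq_closure_of_nonempty_interior
    ((nonempty_obox h).mono (obox_subset_interior a b)), (isClosed_box a b).closure_eq]

lemma isBounded_box (a b : Fin n → ℝ) : Bornology.IsBounded (Box a b) := by
  have h1 : Bornology.IsBounded (Set.Icc a b) := (isCompact_Icc).isBounded
  have h2 : LipschitzWith _ (EuclideanSpace.equiv (Fin n) ℝ).symm :=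
    (EuclideanSpace.equiv (Fin n) ℝ).symm.lipschitz
  refine (h2.isBounded_image h1).subset ?_
  intro x hx
  exact ⟨EuclideanSpace.equiv (Fin n) ℝ x, ⟨fun i => (hx i).1, fun i => (hx i).2⟩, by simp⟩

lemma isCompact_box (a b : Fin n → ℝ) : IsCompact (Box a b) :=
  Metric.isCompact_of_isClosed_isBounded (isClosed_box a b) (isBounded_box a b)

lemma cell_eq (c : E n) : Cell c = Box (fun i => c i - 1 / 2) (fun i => c i + 1 / 2) := by
  ext x
  simp only [Cell, Box, Set.mem_ofPred_eq, abs_le]
  refine forall_congr' fun i => ⟨fun h => ⟨by linarith, by linarith⟩, fun h => ⟨by linarith, by linarith⟩⟩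

lemma cav_eq (c : E n) : Cav c = Box (fun i => c i - w i) (fun i => c i + w i) := by
  ext x
  simp only [Cav, Box, Set.mem_ofPred_eq, abs_le]
  refine forall_congr' fun i => ⟨fun h => ⟨by linarith, by linarith⟩, fun h => ⟨by linarith, by linarith⟩⟩

/-- the pieces of the shell -/
noncomputable def lo (i : Fin n) (s : Bool) : Fin n → ℝ := fun j => if j = i ∧ s = true then w i else -(1 / 2)
noncomputable def hi (i : Fin n) (s : Bool) : Fin n → ℝ := fun j => if j = i ∧ s = false then -w i else 1 / 2

lemma shell_eq : (Shell 0 : Set (E n)) = ⋃ i : Fin n, ⋃ s : Bool, Box (lo i s) (hi i s) := by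
  ext x
  simp only [Shell, Set.mem_ofPred_eq, PiLp.zero_apply, sub_zero, mem_iUnion, Box]
  constructor
  · rintro ⟨h1, i, hi'⟩
    refine ⟨i, ?_⟩
    rcases le_abs.1 hi' with h | h
    · refine ⟨true, fun j => ?_⟩
      have := abs_le.1 (h1 j)
      by_cases hj : j = i
      · subst hj
        simp only [lo, hi, true_and, if_true, Bool.true_eq_false, and_false, if_false]
        exact ⟨h, this.2⟩
      · simp only [lo, hi, hj, false_and, if_false]
        exact ⟨by linarith, this.2⟩
    · refine ⟨false, fun j => ?_⟩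
      have := abs_le.1 (h1 j)
      by_cases hj : j = i
      · subst hj
        simp only [lo, hi, true_and, if_true, Bool.false_eq_true, and_false, if_false]
        exact ⟨by linarith, by linarith⟩
      · simp only [lo, hi, hj, false_and, if_false]
        exact ⟨by linarith, this.2⟩
  · rintro ⟨i, s, h⟩
    have hwi := w_pos i
    have hwi' := w_le i
    constructor
    · intro j
      have := h j
      rw [abs_le]
      simp only [lo, hi] at this
      split_ifs at this <;> constructor <;> linarith [this.1, this.2]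
    · refine ⟨i, ?_⟩
      have := h i
      simp only [lo, hi, true_and] at this
      cases s
      · simp at this
        exact le_abs.2 (Or.inr (by linarith [this.2]))
      · simp at this
        exact le_abs.2 (Or.inl (by linarith [this.1]))

lemma lo_lt_hi (i : Fin n) (s : Bool) (j : Fin n) : lo i s j < hi i s j := by
  have hwi := w_pos i
  have hwi' := w_le i
  unfold lo hi
  split_ifs with h1 h2
  · rw [h1.2] at h2; simp at h2
  · linarith
  · linarith
  · linarith

/-- index type of the pieces of the tile -/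
abbrev Idx (n : ℕ) := (Fin n × Bool) ⊕ Fin 3

noncomputable def low (K : ℕ) : Idx n → Fin n → ℝ
  | Sum.inl (i, s) => lo i s
  | Sum.inr 0 => fun i => (e : E n) i - w i
  | Sum.inr 1 => fun i => (-(K : ℝ) • (e : E n)) i - 1 / 2
  | Sum.inr 2 => fun i => (((K : ℝ) + 1) • (e : E n)) i - 1 / 2

noncomputable def upp (K : ℕ) : Idx n → Fin n → ℝ
  | Sum.inl (i, s) => hi i s
  | Sum.inr 0 => fun i => (e : E n) i + w i
  | Sum.inr 1 => fun i => (-(K : ℝ) • (e : E n)) i + 1 / 2
  | Sum.inr 2 => fun i => (((K : ℝ) + 1) • (e : E n)) i + 1 / 2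

lemma low_lt_upp (K : ℕ) (a : Idx n) (j : Fin n) : low K a j < upp K a j := by
  have hwi := w_pos j
  rcases a with ⟨i, s⟩ | t
  · exact lo_lt_hi i s j
  · fin_cases t <;> simp only [low, upp] <;> linarith

lemma tile_eq (K : ℕ) : (Tile K : Set (E n)) = ⋃ a : Idx n, Box (low K a) (upp K a) := by
  ext x
  simp only [Tile, shell_eq, cell_eq, cav_eq, mem_union, mem_iUnion]
  constructor
  · rintro (((⟨i, s, h⟩ | h) | h) | h)
    · exact ⟨Sum.inl (i, s), h⟩
    · exact ⟨Sum.inr 0, h⟩
    · exact ⟨Sum.inr 1, h⟩
    · exact ⟨Sum.inr 2, h⟩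
  · rintro ⟨a, h⟩
    rcases a with ⟨i, s⟩ | t
    · exact Or.inl (Or.inl (Or.inl ⟨i, s, h⟩))
    · fin_cases t
      · exact Or.inl (Or.inl (Or.inr h))
      · exact Or.inl (Or.inr h)
      · exact Or.inr h

lemma isBody_tile (K : ℕ) : IsBody (Tile K : Set (E n)) := by
  have hcl : IsClosed (Tile K : Set (E n)) := by
    rw [tile_eq]
    exact isClosed_iUnion_of_finite fun a => isClosed_box _ _
  refine ⟨?_, ?_, ?_⟩
  · rw [tile_eq]
    exact isCompact_iUnion fun a => isCompact_box _ _
  · refine ((nonempty_obox (low_lt_upp K (Sum.inr 0))).mono (obox_subset_interior _ _)).mono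
      (interior_mono ?_)
    rw [tile_eq]
    exact subset_iUnion (fun a : Idx n => Box (low K a) (upp K a)) (Sum.inr 0)
  · refine Set.Subset.antisymm ?_ ?_
    · calc closure (interior (Tile K)) ⊆ closure (Tile K) := closure_mono interior_subset
        _ = Tile K := hcl.closure_eq
    · have h : (Tile K : Set (E n)) = ⋃ a : Idx n, closure (interior (Box (low K a) (upp K a))) := by
        rw [tile_eq]
        exact iUnion_congr fun a => (closure_interior_box (low_lt_upp K a)).symm
      rw [h]
      refine iUnion_subset fun a => closure_mono (interior_mono ?_)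
      rw [← h, tile_eq]
      exact subset_iUnion (fun a : Idx n => Box (low K a) (upp K a)) a

end Pool.Agent.H124R2.Heesch
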