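import Pool.Agent.H124R2.Heesch.Basic

set_option linter.unusedSectionVars false

namespace Pool.Agent.H124R2.Heesch

open Set Metric

variable {n : ℕ} [NeZero n]

/-- the open cube minus the closed cavity is in the interior of the tile -/
lemma openShell_subset (K : ℕ) :
    {x : E n | (∀ i, |x i| < 1 / 2) ∧ x ∉ (Cav 0 : Set (E n))} ⊆ interior (Tile K) := by
  refine interior_maximal ?_ ?_
  · rintro x ⟨h1, h2⟩
    refine Or.inl (Or.inl (Or.inl ⟨fun i => ?_, ?_⟩))
    · simpa using (h1 i).le
    · by_contra hcon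
      push Not at hcon
      exact h2 fun i => (hcon i).le
  · have h1 : IsOpen {x : E n | ∀ i, |x i| < 1 / 2} := by
      simp only [Set.ofPred_forall]
      exact isOpen_iInter_of_finite fun i => isOpen_lt (by fun_prop) continuous_const
    have h2 : IsClosed (Cav 0 : Set (E n)) := by rw [cav_eq]; exact isClosed_box _ _
    exact h1.inter h2.isOpen_compl

/-- points deep inside a cube of the tile -/
lemma mem_interior_cell (c : E n) (x : E n) (h : ∀ i, |x i - c i| < 1 / 2) :
    x ∈ interior (Cell c) := by
  rw [cell_eq]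
  refine obox_subset_interior _ _ fun i => ?_
  have := abs_lt.1 (h i)
  constructor <;> simp only <;> linarith

lemma center_mem_interior_cell (c : E n) : c ∈ interior (Cell c) :=
  mem_interior_cell c c fun i => by simp

lemma cell_neg_subset (K : ℕ) : Cell (-(K : ℝ) • (e : E n)) ⊆ Tile K :=
  fun _ h => Or.inl (Or.inr h)

lemma cell_pos_subset (K : ℕ) : Cell (((K : ℝ) + 1) • (e : E n)) ⊆ Tile K :=
  fun _ h => Or.inr h

lemma zero_notMem_tile {K : ℕ} (hK : 1 ≤ K) : (0 : E n) ∉ Tile K := by
  have hK' : (1 : ℝ) ≤ K := by exact_mod_cast hK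
  rintro (((⟨-, i, h⟩ | h) | h) | h)
  · have := w_pos i
    simp at h
    linarith
  · have := h 0
    simp [e_zero, w_zero] at this
    norm_num at this
  · have := h 0
    simp only [PiLp.zero_apply, PiLp.smul_apply, e_zero, smul_eq_mul, abs_le] at this
    linarith [this.2]
  · have := h 0
    simp only [PiLp.zero_apply, PiLp.smul_apply, e_zero, smul_eq_mul, abs_le] at this
    linarith [this.1]

/-- squared distances inside the cavity are small -/
lemma dist_cav {x y : E n} (hx : x ∈ (Cav 0 : Set (E n))) (hy : y ∈ (Cav 0 : Set (E n))) :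
    dist x y ^ 2 ≤ (n : ℝ) * (1 / 16) := by
  rw [EuclideanSpace.dist_eq, Real.sq_sqrt (Finset.sum_nonneg fun i _ => sq_nonneg _)]
  calc ∑ i, dist (x i) (y i) ^ 2 ≤ ∑ _i : Fin n, (1 / 16 : ℝ) := by
        refine Finset.sum_le_sum fun i _ => ?_
        have h1 := hx i
        have h2 := hy i
        simp only [PiLp.zero_apply, sub_zero] at h1 h2
        have h3 := w_le i
        rw [Real.dist_eq]
        have h4 : |x i - y i| ≤ 1 / 4 := by
          calc |x i - y i| ≤ |x i| + |y i| := abs_sub _ _
            _ ≤ 1 / 4 := by linarith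
        nlinarith [abs_nonneg (x i - y i)]
    _ = (n : ℝ) * (1 / 16) := by simp

/-- points far apart -/
lemma dist_large {x y : E n} (h : ∀ i, 3 / 8 ≤ |x i - y i|) :
    (n : ℝ) * (9 / 64) ≤ dist x y ^ 2 := by
  rw [EuclideanSpace.dist_eq, Real.sq_sqrt (Finset.sum_nonneg fun i _ => sq_nonneg _)]
  calc (n : ℝ) * (9 / 64) = ∑ _i : Fin n, (9 / 64 : ℝ) := by simp
    _ ≤ ∑ i, dist (x i) (y i) ^ 2 := by
        refine Finset.sum_le_sum fun i _ => ?_
        rw [Real.dist_eq]
        nlinarith [h i]

/-- every piece other than the key has two points far apart. -/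
lemma piece_large (K : ℕ) (a : Idx n) (ha : a ≠ Sum.inr 0) (j : Fin n) :
    3 / 8 ≤ |upp K a j - low K a j| := by
  have h3 := w_le j
  have h4 := w_pos j
  rw [abs_of_pos (by linarith [low_lt_upp K a j])]
  rcases a with ⟨i, s⟩ | t
  · simp only [low, upp]
    unfold lo hi
    have h5 := w_le i
    have h6 := w_pos i
    split_ifs with h1 h2
    · rw [h1.2] at h2; simp at h2
    · linarith
    · linarith
    · linarith
  · fin_cases t
    · exact absurd rfl ha
    · simp only [low, upp]; norm_num
    · simp only [low, upp]; norm_num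

/-- If an isometric copy of a piece of the tile avoids the open shell and contains `0`, then it
lies in the cavity. -/
lemma piece_subset_cav {K : ℕ} (h : E n ≃ᵢ E n)
    (hd : Disjoint (interior (h '' (Tile K : Set (E n)))) (interior (Tile K)))
    (a : Idx n) (ha : (0 : E n) ∈ h '' Box (low K a) (upp K a)) :
    h '' Box (low K a) (upp K a) ⊆ Cav 0 := by
  set B := Box (low K a) (upp K a) with hB
  have hcl : closure (interior B) = B := closure_interior_box (low_lt_upp K a)
  have hBT : B ⊆ Tile K := by
    rw [tile_eq]; exact subset_iUnion (fun a : Idx n => Box (low K a) (upp K a)) a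
  have hUint : h '' interior B ⊆ interior (h '' (Tile K : Set (E n))) := by
    have : h '' interior B = interior (h '' B) := h.toHomeomorph.image_interior B
    rw [this]
    exact interior_mono (image_mono hBT)
  have hpre : IsPreconnected (h '' interior B) :=
    ((convex_box _ _).interior.isPreconnected).image _ h.continuous.continuousOn
  have hclU : h '' B ⊆ closure (h '' interior B) := by
    have := h.toHomeomorph.image_closure (interior B)
    rw [hcl] at this
    exact this.le
  have hcav : IsClosed (Cav 0 : Set (E n)) := by rw [cav_eq]; exact isClosed_box _ _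
  have hout : IsClosed {x : E n | ∃ i, 1 / 2 ≤ |x i|} := by
    have : {x : E n | ∃ i, 1 / 2 ≤ |x i|} = ⋃ i, {x : E n | 1 / 2 ≤ |x i|} := by
      ext x; simp
    rw [this]
    exact isClosed_iUnion_of_finite fun i => isClosed_le continuous_const (by fun_prop)
  have hsub : h '' interior B ⊆ (Cav 0 : Set (E n)) ∪ {x : E n | ∃ i, 1 / 2 ≤ |x i|} := by
    intro x hx
    by_contra hcon
    simp only [mem_union, not_or, Set.mem_ofPred_eq, not_exists, not_le] at hcon
    exact Set.disjoint_left.1 hd (hUint hx) (openShell_subset K ⟨hcon.2, hcon.1⟩)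
  have hnon : (h '' interior B ∩ (Cav 0 : Set (E n))).Nonempty := by
    have h0 : (0 : E n) ∈ closure (h '' interior B) := hclU ha
    have hop : IsOpen {x : E n | ∀ i, |x i| < w i} := by
      simp only [Set.ofPred_forall]
      exact isOpen_iInter_of_finite fun i => isOpen_lt (by fun_prop) continuous_const
    obtain ⟨y, hy1, hy2⟩ := mem_closure_iff.1 h0 _ hop (by
      intro i
      have := w_pos i
      simp only [PiLp.zero_apply, abs_zero]
      linarith)
    refine ⟨y, hy2, fun i => ?_⟩
    simpa using (hy1 i).le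
  have hU : h '' interior B ⊆ (Cav 0 : Set (E n)) := by
    intro x hx
    rcases hsub hx with hx' | hx'
    · exact hx'
    · exfalso
      obtain ⟨y, -, hy1, hy2⟩ := isPreconnected_closed_iff.1 hpre _ _ hcav hout hsub hnon ⟨x, hx, hx'⟩
      obtain ⟨i, hi⟩ := hy2
      have h1 := hy1 i
      have h2 := w_le i
      simp only [PiLp.zero_apply, sub_zero] at h1
      linarith
  calc h '' B ⊆ closure (h '' interior B) := hclU
    _ ⊆ closure (Cav 0) := closure_mono hU
    _ = Cav 0 := hcav.closure_eq

/-- The piece containing `0` is the key. -/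
lemma key_subset_cav {K : ℕ} (h : E n ≃ᵢ E n)
    (h0 : (0 : E n) ∈ h '' (Tile K : Set (E n)))
    (hd : Disjoint (interior (h '' (Tile K : Set (E n)))) (interior (Tile K))) :
    h '' Cav e ⊆ Cav 0 := by
  obtain ⟨x, hx, hx0⟩ := h0
  rw [tile_eq, mem_iUnion] at hx
  obtain ⟨a, ha⟩ := hx
  have hsub := piece_subset_cav h hd a ⟨x, ha, hx0⟩
  by_cases hk : a = Sum.inr 0
  · subst hk
    rw [cav_eq]
    exact hsub
  · exfalso
    have h1 : (WithLp.toLp 2 (upp K a) : E n) ∈ Box (low K a) (upp K a) :=
      fun i => ⟨(low_lt_upp K a i).le, le_rfl⟩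
    have h2 : (WithLp.toLp 2 (low K a) : E n) ∈ Box (low K a) (upp K a) :=
      fun i => ⟨le_rfl, (low_lt_upp K a i).le⟩
    have h3 := dist_cav (hsub ⟨_, h1, rfl⟩) (hsub ⟨_, h2, rfl⟩)
    rw [h.isometry.dist_eq] at h3
    have h4 := dist_large (x := (WithLp.toLp 2 (upp K a) : E n)) (y := WithLp.toLp 2 (low K a))
      (fun i => piece_large K a hk i)
    have h5 : (0 : ℝ) < n := by exact_mod_cast Nat.pos_of_ne_zero (NeZero.ne n)
    nlinarith

/-- norm bound in the cavity -/
lemma norm_cav {y : E n} (hy : y ∈ (Cav 0 : Set (E n))) :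
    ‖y‖ * ‖y‖ ≤ ∑ i : Fin n, w i ^ 2 := by
  rw [← sq, EuclideanSpace.norm_sq_eq]
  refine Finset.sum_le_sum fun i _ => ?_
  have h1 := hy i
  simp only [PiLp.zero_apply, sub_zero] at h1
  rw [Real.norm_eq_abs]
  have h2 := w_pos i
  nlinarith [abs_nonneg (y i)]

lemma chain_step {K : ℕ} (h : E n ≃ᵢ E n)
    (h0 : (0 : E n) ∈ h '' (Tile K : Set (E n)))
    (hd : Disjoint (interior (h '' (Tile K : Set (E n)))) (interior (Tile K))) (t : ℝ) :
    h (t • e) = (t - 1) • e := by
  have hsub := key_subset_cav h h0 hd
  set F := h.toRealAffineIsometryEquiv with hF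
  set L := F.linearIsometryEquiv with hL
  have hmap : ∀ x y : E n, h (x + y) = L x + h y := by
    intro x y
    have := F.map_vadd y x
    simpa [hF] using this
  set c := h e with hc
  have hLc : ∀ x ∈ (Cav 0 : Set (E n)), L x + c ∈ (Cav 0 : Set (E n)) := by
    intro x hx
    rw [← hmap]
    refine hsub ⟨_, fun i => ?_, rfl⟩
    have := hx i
    simpa using this
  -- the centre is fixed
  have hc0 : c = 0 := by
    set v : E n := WithLp.toLp 2 w with hv
    have hv1 : v ∈ (Cav 0 : Set (E n)) := fun i => by
      have := w_pos i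
      simp only [hv, PiLp.zero_apply, sub_zero]
      rw [abs_of_nonneg (by linarith)]
    have hv2 : -v ∈ (Cav 0 : Set (E n)) := fun i => by
      have := hv1 i
      simpa using this
    have hnv : ‖v‖ * ‖v‖ = ∑ i : Fin n, w i ^ 2 := by
      rw [← sq, EuclideanSpace.norm_sq_eq]
      refine Finset.sum_congr rfl fun i _ => ?_
      simp [hv]
    have h1 := norm_cav (hLc v hv1)
    have h2 := norm_cav (hLc (-v) hv2)
    have h3 := parallelogram_law_with_norm ℝ c (L v)
    have h4 : ‖L v‖ = ‖v‖ := L.norm_map v
    have h5 : L (-v) + c = c - L v := by rw [map_neg]; abel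
    have h6 : L v + c = c + L v := by abel
    rw [h5] at h2
    rw [h6] at h1
    rw [h4] at h3
    have h7 : ‖c‖ * ‖c‖ ≤ 0 := by nlinarith
    have h8 : ‖c‖ = 0 := by nlinarith [norm_nonneg c]
    exact norm_eq_zero.1 h8
  -- the direction of the first axis is preserved
  set u := L.symm e with hu
  have hLu : L u = e := by simp [hu]
  have hnu : ‖u‖ = 1 := by rw [hu, L.symm.norm_map, norm_e]
  have hsq : ∑ i, u i ^ 2 = 1 := by
    have := EuclideanSpace.norm_sq_eq u
    rw [hnu] at this
    simp only [Real.norm_eq_abs, sq_abs] at this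
    linarith
  have hule : ∀ i, |u i| ≤ 1 := by
    intro i
    have h1 : u i ^ 2 ≤ ∑ j, u j ^ 2 :=
      Finset.single_le_sum (f := fun j => u j ^ 2) (fun j _ => sq_nonneg _) (Finset.mem_univ i)
    rw [hsq] at h1
    rw [← sq_abs] at h1
    nlinarith [abs_nonneg (u i)]
  have hsum : ∑ i, w i * |u i| ≤ 1 / 16 := by
    set x : E n := WithLp.toLp 2 fun i => if 0 ≤ u i then w i else -w i with hx
    have hxm : x ∈ (Cav 0 : Set (E n)) := fun i => by
      have := w_pos i
      simp only [hx, PiLp.zero_apply, sub_zero]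
      split_ifs
      · rw [abs_of_nonneg (by linarith)]
      · rw [abs_neg, abs_of_nonneg (by linarith)]
    have h1 := hLc x hxm 0
    rw [hc0, add_zero] at h1
    simp only [PiLp.zero_apply, sub_zero, w_zero] at h1
    have h2 : inner ℝ (L x) (L u) = inner ℝ x u := L.inner_map_map x u
    rw [hLu] at h2
    have h3 : inner ℝ (L x) (e : E n) = (L x) 0 := by
      rw [PiLp.inner_apply]
      rw [Finset.sum_eq_single 0]
      · simp [e_zero]
      · intro i _ hi
        simp [e_ne hi]
      · simp
    have h4 : inner ℝ x u = ∑ i, w i * |u i| := by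
      rw [PiLp.inner_apply]
      refine Finset.sum_congr rfl fun i _ => ?_
      simp only [hx, RCLike.inner_apply, conj_trivial]
      split_ifs with h
      · rw [abs_of_nonneg h]; ring
      · rw [abs_of_neg (not_le.1 h)]; ring
    rw [h3, h4] at h2
    rw [← h2]
    exact (le_abs_self _).trans h1
  have hzero : ∀ i, w i * |u i| - u i ^ 2 / 16 = 0 := by
    have hnn : ∀ i ∈ Finset.univ, 0 ≤ w i * |u i| - u i ^ 2 / 16 := by
      intro i _
      have h1 := w_pos i
      have h2 := hule i
      have h3 := abs_nonneg (u i)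
      rw [← sq_abs]
      nlinarith
    have h1 : ∑ i, (w i * |u i| - u i ^ 2 / 16) = 0 := by
      apply le_antisymm
      · rw [Finset.sum_sub_distrib, ← Finset.sum_div, hsq]
        linarith
      · exact Finset.sum_nonneg hnn
    intro i
    exact (Finset.sum_eq_zero_iff_of_nonneg hnn).1 h1 i (Finset.mem_univ i)
  have hui : ∀ i, i ≠ 0 → u i = 0 := by
    intro i hi
    have h1 := hzero i
    rw [w_ne hi, ← sq_abs] at h1
    have h2 := hule i
    have h3 := abs_nonneg (u i)
    have : |u i| = 0 := by nlinarith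
    exact abs_eq_zero.1 this
  have hue : u = u 0 • (e : E n) := by
    ext i
    by_cases hi : i = 0
    · subst hi; simp [e_zero]
    · rw [hui i hi]; simp [e_ne hi]
  have hu0 : u 0 * u 0 = 1 := by
    rw [Finset.sum_eq_single 0] at hsq
    · rw [← hsq]; ring
    · intro i _ hi; rw [hui i hi]; ring
    · simp
  have hLe : L e = u 0 • (e : E n) := by
    have h1 : L (u 0 • (e : E n)) = e := by rw [← hue]; exact hLu
    rw [map_smul] at h1
    calc L e = (u 0 * u 0) • L e := by rw [hu0, one_smul]
      _ = u 0 • (u 0 • L e) := by rw [smul_smul]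
      _ = u 0 • e := by rw [h1]
  have hht : ∀ s : ℝ, h (s • e) = ((s - 1) * u 0) • e := by
    intro s
    have h1 : s • (e : E n) = (s - 1) • e + e := by
      rw [sub_smul, one_smul]; abel
    rw [h1, hmap, ← hc, hc0, add_zero, map_smul, hLe, smul_smul]
  rcases mul_self_eq_one_iff.1 hu0 with h1 | h1
  · rw [hht, h1, mul_one]
  · exfalso
    have h2 : (((K : ℝ) + 1) • e : E n) ∈ interior (h '' (Tile K : Set (E n))) := by
      have h3 : h '' interior (Tile K : Set (E n)) = interior (h '' Tile K) :=
        h.toHomeomorph.image_interior _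
      rw [← h3]
      refine ⟨-(K : ℝ) • e, interior_mono (cell_neg_subset K) (center_mem_interior_cell _), ?_⟩
      rw [hht, h1]
      congr 1
      ring
    exact Set.disjoint_left.1 hd h2 (interior_mono (cell_pos_subset K) (center_mem_interior_cell _))

/-- The body does not tile. -/
theorem not_tiles {K : ℕ} (hK : 1 ≤ K) : ¬ Tiles (Tile K : Set (E n)) := by
  rintro ⟨P, ⟨hcong, hpair⟩, hcov⟩
  -- some tile
  obtain ⟨B, hBP, -⟩ : ∃ B ∈ P, (0 : E n) ∈ B := by
    have : (0 : E n) ∈ ⋃₀ P := by rw [hcov]; trivial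
    simpa using this
  obtain ⟨g₀, hg₀⟩ := hcong B hBP
  have hchain : ∀ j : ℕ, ∃ g : E n ≃ᵢ E n, g '' Tile K ∈ P ∧
      ∀ t : ℝ, g (t • e) = g₀ ((t - j) • e) := by
    intro j
    induction j with
    | zero => exact ⟨g₀, hg₀ ▸ hBP, fun t => by simp⟩
    | succ j ih =>
      obtain ⟨g, hg, hgt⟩ := ih
      obtain ⟨B', hB', hB0⟩ : ∃ B' ∈ P, g 0 ∈ B' := by
        have : g 0 ∈ ⋃₀ P := by rw [hcov]; trivial
        simpa using this
      obtain ⟨g', hg'⟩ := hcong B' hB'
      have hne : g '' Tile K ≠ B' := by
        rintro rfl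
        obtain ⟨x, hx, hx0⟩ := hB0
        rw [g.injective hx0] at hx
        exact zero_notMem_tile hK hx
      have hdis : Disjoint (interior (g '' (Tile K : Set (E n)))) (interior B') :=
        hpair hg hB' hne
      set h : E n ≃ᵢ E n := g'.trans g.symm with hh
      have himg : h '' Tile K = g.symm '' B' := by
        rw [← hg', hh, ← image_comp]; rfl
      have h0 : (0 : E n) ∈ h '' (Tile K : Set (E n)) := by
        rw [himg]
        exact ⟨g 0, hB0, by simp⟩
      have hd : Disjoint (interior (h '' (Tile K : Set (E n)))) (interior (Tile K)) := by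
        rw [Set.disjoint_left] at hdis ⊢
        intro x hx hx'
        rw [himg] at hx
        have h1 : g.symm '' interior B' = interior (g.symm '' B') :=
          g.symm.toHomeomorph.image_interior _
        rw [← h1] at hx
        obtain ⟨y, hy, rfl⟩ := hx
        have h2 : g '' interior (Tile K : Set (E n)) = interior (g '' Tile K) :=
          g.toHomeomorph.image_interior _
        refine hdis (a := y) ?_ hy
        rw [← h2]
        exact ⟨_, hx', by simp⟩
      refine ⟨g', hg' ▸ hB', fun t => ?_⟩
      have h3 := chain_step h h0 hd t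
      have h4 : g' (t • e) = g ((t - 1) • e) := by
        rw [← h3, hh]
        simp
      rw [h4, hgt]
      congr 2
      push_cast
      ring
  obtain ⟨g, hg, hgt⟩ := hchain K
  have hKr : (1 : ℝ) ≤ K := by exact_mod_cast hK
  have hint : ∀ (f : E n ≃ᵢ E n), f '' interior (Tile K : Set (E n)) = interior (f '' Tile K) :=
    fun f => f.toHomeomorph.image_interior _
  -- a common interior point
  have hp1 : g ((1 / 4 : ℝ) • e) ∈ interior (g '' (Tile K : Set (E n))) := by
    rw [← hint]
    refine ⟨_, openShell_subset K ⟨fun i => ?_, fun hcon => ?_⟩, rfl⟩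
    · rw [PiLp.smul_apply, smul_eq_mul, e_apply]
      split_ifs <;> norm_num
    · have := hcon 0
      simp only [PiLp.smul_apply, e_zero, smul_eq_mul, PiLp.zero_apply, w_zero] at this
      norm_num at this
  have hp2 : g ((1 / 4 : ℝ) • e) ∈ interior (g₀ '' (Tile K : Set (E n))) := by
    rw [← hint, hgt]
    refine ⟨_, interior_mono (cell_neg_subset K) (mem_interior_cell _ _ fun i => ?_), rfl⟩
    simp only [PiLp.smul_apply, smul_eq_mul, e_apply]
    split_ifs
    · rw [abs_lt]; constructor <;> linarith
    · simp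
  by_cases hEq : g '' (Tile K : Set (E n)) = g₀ '' Tile K
  · -- the two tiles cannot be equal
    have h1 : g₀ ((-(K : ℝ)) • e) ∈ g₀ '' (Tile K : Set (E n)) :=
      ⟨_, interior_subset (interior_mono (cell_neg_subset K) (center_mem_interior_cell _)), rfl⟩
    rw [← hEq] at h1
    obtain ⟨x, hx, hx0⟩ := h1
    have h2 := hgt 0
    rw [zero_smul, zero_sub] at h2
    rw [← h2] at hx0
    rw [g.injective hx0] at hx
    exact zero_notMem_tile hK hx
  · exact Set.disjoint_left.1 (hpair hg (hg₀ ▸ hBP) (by rw [← hg₀] at *; exact hEq)) hp1 hp2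

end Pool.Agent.H124R2.Heesch
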