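import Pool.Agent.H124R2.Heesch.Patch
import Pool.Agent.H124R2.Heesch.NoTile

set_option linter.unusedSectionVars false

namespace Pool.Agent.H124R2.Heesch

open Set Metric

/-- The `k`-th corona of `A` in the family `P`: all members `Q` of `P` which can be reached from `A`
by a chain `A = c 0, c 1, …, c m = Q` of members of `P`, with `m ≤ k`, in which consecutive members
meet. -/
def corona {n : ℕ} (P : Set (Set (E n))) (A : Set (E n)) (k : ℕ) : Set (Set (E n)) :=
  {Q | ∃ m ≤ k, ∃ c : ℕ → Set (E n), c 0 = A ∧ c m = Q ∧ (∀ i ≤ m, c i ∈ P) ∧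
    ∀ i < m, (c i ∩ c (i + 1)).Nonempty}

/-- `A` is completely surrounded `k` times: there is a patch `P` of congruent copies of `A`, with
`A ∈ P`, in which `|C^{j-1}(A)|` lies in the interior of `|C^j(A)|` for `j = 1, …, k`. -/
def SurroundedTimes {n : ℕ} (A : Set (E n)) (k : ℕ) : Prop :=
  ∃ P : Set (Set (E n)), IsPacking A P ∧ A ∈ P ∧
    ∀ j, 1 ≤ j → j ≤ k → ⋃₀ corona P A (j - 1) ⊆ interior (⋃₀ corona P A j)

variable {n : ℕ} [NeZero n]

/-- the patch -/
def Pat (n K k : ℕ) [NeZero n] : Set (Set (E n)) := Tr K '' BZ n k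

lemma BZ_mono {j k : ℕ} (h : j ≤ k) : BZ n j ⊆ BZ n k :=
  fun _ hz i => (hz i).trans (by exact_mod_cast h)

lemma BZ_sub {k : ℕ} {z z' : Fin n → ℤ} (hz : z ∈ BZ n k) (hz' : z' ∈ BZ n k) (i : Fin n) :
    |z i - z' i| ≤ 2 * k := by
  have h1 := hz i
  have h2 := hz' i
  rw [abs_le] at *
  constructor <;> linarith [h1.1, h1.2, h2.1, h2.2]

lemma isPacking_Pat (k : ℕ) : IsPacking (Tile (2 * k + 2) : Set (E n)) (Pat n (2 * k + 2) k) := by
  constructor
  · rintro _ ⟨z, -, rfl⟩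
    exact congruent_Tr _ z
  · rintro _ ⟨z, hz, rfl⟩ _ ⟨z', hz', rfl⟩ hne
    have h : z ≠ z' := fun h => hne (by rw [h])
    refine disjoint_Tr h ?_
    have := BZ_sub hz hz' 0
    push_cast
    linarith

lemma corona_subset (k j : ℕ) :
    corona (Pat n (2 * k + 2) k) (Tile (2 * k + 2)) j ⊆ Tr (2 * k + 2) '' BZ n j := by
  rintro Q ⟨m, hm, c, hc0, hcm, hcP, hc⟩
  have key : ∀ i ≤ m, ∃ z ∈ BZ n i, z ∈ BZ n k ∧ c i = Tr (2 * k + 2) z := by
    intro i
    induction i with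
    | zero =>
      intro _
      exact ⟨0, fun i => by simp, fun i => by simp, by rw [hc0, Tr_zero]⟩
    | succ i ih =>
      intro hi
      obtain ⟨z, hz, hzk, hcz⟩ := ih (by omega)
      obtain ⟨z', hz', hcz'⟩ := hcP (i + 1) hi
      have h1 := hc i (by omega)
      rw [hcz, ← hcz'] at h1
      refine ⟨z', BZ_of_close hz fun i => ?_, hz', hcz'.symm⟩
      rw [abs_sub_comm]
      refine touch ?_ h1 i
      have := BZ_sub hzk hz' 0
      push_cast
      linarith
  obtain ⟨z, hz, -, hcz⟩ := key m le_rfl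
  exact ⟨z, BZ_mono hm hz, by rw [← hcz, hcm]⟩

/-- clamp an integer to `[-i, i]` -/
def clamp (i : ℕ) (a : ℤ) : ℤ := max (-(i : ℤ)) (min a i)

lemma clamp_zero (a : ℤ) : clamp 0 a = 0 := by
  simp only [clamp, Nat.cast_zero]; omega

lemma clamp_self {j : ℕ} {a : ℤ} (h : |a| ≤ j) : clamp j a = a := by
  rw [abs_le] at h
  simp only [clamp]; omega

lemma abs_clamp (i : ℕ) (a : ℤ) : |clamp i a| ≤ i := by
  rw [abs_le]
  simp only [clamp]; omega

lemma clamp_succ (i : ℕ) (a : ℤ) : |clamp i a - clamp (i + 1) a| ≤ 1 := by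
  rw [abs_le]
  simp only [clamp]
  push_cast
  omega

lemma subset_corona {k j : ℕ} (hj : j ≤ k) :
    Tr (2 * k + 2) '' BZ n j ⊆ corona (Pat n (2 * k + 2) k) (Tile (2 * k + 2)) j := by
  rintro _ ⟨z, hz, rfl⟩
  have h0 : (fun l : Fin n => clamp 0 (z l)) = 0 := funext fun l => clamp_zero _
  have hm : (fun l : Fin n => clamp j (z l)) = z := funext fun l => clamp_self (hz l)
  refine ⟨j, le_rfl, fun i => Tr (2 * k + 2) fun l => clamp i (z l), ?_, ?_, ?_, ?_⟩
  · beta_reduce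
    rw [h0, Tr_zero]
  · beta_reduce
    rw [hm]
  · intro i hi
    exact mem_image_of_mem _ (BZ_mono (hi.trans hj) fun l => abs_clamp i (z l))
  · intro i _
    exact adj_nonempty fun l => clamp_succ i (z l)

lemma corona_eq {k j : ℕ} (hj : j ≤ k) :
    corona (Pat n (2 * k + 2) k) (Tile (2 * k + 2)) j = Tr (2 * k + 2) '' BZ n j :=
  Subset.antisymm (corona_subset k j) (subset_corona hj)

/-- The body `Tile (2k+2)` is completely surrounded `k` times. -/
theorem surrounded (k : ℕ) : SurroundedTimes (Tile (2 * k + 2) : Set (E n)) k := by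
  refine ⟨Pat n (2 * k + 2) k, isPacking_Pat k, ⟨0, fun i => by simp, Tr_zero _⟩, ?_⟩
  intro j hj1 hjk
  obtain ⟨j, rfl⟩ : ∃ i, j = i + 1 := ⟨j - 1, by omega⟩
  rw [Nat.add_sub_cancel, corona_eq (by omega), corona_eq hjk, sUnion_image, sUnion_image]
  exact iUnion₂_subset fun z hz => Tr_subset_interior hz

end Pool.Agent.H124R2.Heesch
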