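import Mathlib

/-!
# Heesch's problem for bodies: definitions and the bodies used

`E n` is Euclidean `n`-space.
-/

namespace Pool.Agent.H124R2.Heesch

open Set Metric

/-- Euclidean `n`-space. -/
abbrev E (n : ℕ) := EuclideanSpace ℝ (Fin n)

/-- A body: a compact set which equals the closure of its nonempty interior. -/
def IsBody {n : ℕ} (A : Set (E n)) : Prop :=
  IsCompact A ∧ (interior A).Nonempty ∧ closure (interior A) = A

/-- `B` is a congruent copy of `A`: the image of `A` under an isometry of `E n` onto itself. -/
def Congruent {n : ℕ} (A B : Set (E n)) : Prop := ∃ g : E n ≃ᵢ E n, g '' A = B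

/-- A family of congruent copies of `A` with pairwise disjoint interiors. -/
def IsPacking {n : ℕ} (A : Set (E n)) (P : Set (Set (E n))) : Prop :=
  (∀ B ∈ P, Congruent A B) ∧ P.Pairwise fun B C => Disjoint (interior B) (interior C)

/-- `A` is the prototile of a monohedral tiling of `E n`. -/
def Tiles {n : ℕ} (A : Set (E n)) : Prop :=
  ∃ P : Set (Set (E n)), IsPacking A P ∧ ⋃₀ P = univ

section construct

variable {n : ℕ} [NeZero n]

/-- The box with lower corner `a` and upper corner `b`. -/
def Box (a b : Fin n → ℝ) : Set (E n) := {x | ∀ i, a i ≤ x i ∧ x i ≤ b i}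

/-- first unit vector -/
noncomputable def e : E n := EuclideanSpace.single (0 : Fin n) (1 : ℝ)

/-- half widths of the cavity -/
noncomputable def w (i : Fin n) : ℝ := if i = 0 then 1 / 16 else 1 / 8

/-- Unit cube centred at `c`. -/
def Cell (c : E n) : Set (E n) := {x | ∀ i, |x i - c i| ≤ 1 / 2}

/-- The box of half widths `w` centred at `c`. -/
def Cav (c : E n) : Set (E n) := {x | ∀ i, |x i - c i| ≤ w i}

/-- The unit cube minus the (open) cavity. -/
def Shell (c : E n) : Set (E n) := {x | (∀ i, |x i - c i| ≤ 1 / 2) ∧ ∃ i, w i ≤ |x i - c i|}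

/-- The body: a cube with a cavity, a key of the shape of the cavity, one unit apart, and two
full cubes far away on the two sides. -/
def Tile (K : ℕ) : Set (E n) :=
  Shell 0 ∪ Cav e ∪ Cell (-(K : ℝ) • e) ∪ Cell (((K : ℝ) + 1) • e)

end construct

end Pool.Agent.H124R2.Heesch
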