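import Pool.Agent.H124R2.Heesch.Basic

set_option linter.unusedSectionVars false

namespace Pool.Agent.H124R2.Heesch

open Set Metric

variable {n : ℕ} [NeZero n]

/-- integer vectors as points -/
def vec (z : Fin n → ℤ) : E n := WithLp.toLp 2 fun i => (z i : ℝ)

@[simp] lemma vec_apply (z : Fin n → ℤ) (i : Fin n) : vec z i = (z i : ℝ) := rfl

/-- the integer unit vector -/
def e1 : Fin n → ℤ := fun i => if i = 0 then 1 else 0

/-- translate of the tile -/
def Tr (K : ℕ) (z : Fin n → ℤ) : Set (E n) := {x | x - vec z ∈ Tile K}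

lemma e1_cast (i : Fin n) : ((e1 i : ℤ) : ℝ) = (e : E n) i := by
  rw [e]
  simp only [e1, PiLp.single_apply]
  split_ifs <;> simp

/-- the nearest integer vector -/
noncomputable def rd (x : E n) : Fin n → ℤ := fun i => round (x i)

lemma rd_le (x : E n) (i : Fin n) : |x i - rd x i| ≤ 1 / 2 := abs_sub_round _

/-- if `x` is in the unit cube about `c` (strictly) then `rd x = c` -/
lemma rd_eq {x : E n} {c : Fin n → ℤ} (h : ∀ i, |x i - c i| < 1 / 2) : rd x = c := by
  funext i
  have h1 := h i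
  have h2 := rd_le x i
  rw [abs_lt] at h1
  rw [abs_le] at h2
  have h3 : (rd x i : ℝ) - c i < 1 := by linarith [h1.2, h2.1]
  have h4 : -1 < (rd x i : ℝ) - c i := by linarith [h1.1, h2.2]
  have h5 : rd x i - c i < 1 := by exact_mod_cast h3
  have h6 : -1 < rd x i - c i := by exact_mod_cast h4
  omega

/-- `x` lies in the cavity of the cube `c` -/
def inCav (x : E n) (c : Fin n → ℤ) : Prop := ∀ i, |x i - c i| ≤ w i

lemma mem_Tr {K : ℕ} {z : Fin n → ℤ} {x : E n} :
    x ∈ Tr K z ↔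
      ((∀ i, |x i - z i| ≤ 1 / 2) ∧ ∃ i, w i ≤ |x i - z i|) ∨
      (∀ i, |x i - (z i + e1 i : ℤ)| ≤ w i) ∨
      (∀ i, |x i - (z i - K * e1 i : ℤ)| ≤ 1 / 2) ∨
      (∀ i, |x i - (z i + (K + 1) * e1 i : ℤ)| ≤ 1 / 2) := by
  simp only [Tr, Tile, mem_union, Set.mem_ofPred_eq, Shell, Cav, Cell, or_assoc]
  push_cast
  simp only [e1_cast, PiLp.sub_apply, vec_apply, PiLp.zero_apply, sub_zero, PiLp.smul_apply,
    smul_eq_mul, neg_mul, sub_neg_eq_add, sub_add_eq_sub_sub, sub_sub_eq_add_sub]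
  simp only [sub_add_eq_add_sub]

lemma Tr_eq_image (K : ℕ) (z : Fin n → ℤ) :
    Tr K z = (IsometryEquiv.addRight (vec z : E n)) '' Tile K := by
  ext x
  constructor
  · intro h
    exact ⟨x - vec z, h, by simp⟩
  · rintro ⟨y, hy, rfl⟩
    simpa [Tr] using hy

lemma congruent_Tr (K : ℕ) (z : Fin n → ℤ) : Congruent (Tile K : Set (E n)) (Tr K z) :=
  ⟨_, (Tr_eq_image K z).symm⟩

lemma Tr_zero (K : ℕ) : Tr K 0 = (Tile K : Set (E n)) := by
  ext x
  have : (vec 0 : E n) = 0 := by ext i; simp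
  simp [Tr, this]

/-- generic points -/
def Gen (n : ℕ) : Set (E n) := ⋂ p : Fin n × ℤ, {x : E n | x p.1 ≠ (p.2 : ℝ) / 16}

lemma dense_gen : Dense (Gen n) := by
  refine dense_iInter_of_isOpen (fun p => ?_) (fun p => ?_)
  · exact isOpen_ne_fun (by fun_prop) continuous_const
  · have h1 : Dense ({(p.2 : ℝ) / 16}ᶜ : Set ℝ) := dense_compl_singleton _
    have h2 : IsOpenMap (EuclideanSpace.proj p.1 : E n →L[ℝ] ℝ) := by
      refine ContinuousLinearMap.isOpenMap _ fun y => ⟨EuclideanSpace.single p.1 y, ?_⟩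
      simp
    exact h1.preimage h2

lemma gen_mem {K : ℕ} {z : Fin n → ℤ} {x : E n} (hx : x ∈ Gen n) (h : x ∈ Tr K z) :
    (rd x = z ∧ ¬ inCav x (rd x)) ∨ (rd x = z + e1 ∧ inCav x (rd x)) ∨
      (rd x = fun i => z i - K * e1 i) ∨ (rd x = fun i => z i + (K + 1) * e1 i) := by
  have hne : ∀ (i : Fin n) (q : ℤ), x i ≠ (q : ℝ) / 16 := fun i q => by
    have := mem_iInter.1 hx (i, q)
    exact this
  have hstrict : ∀ (i : Fin n) (q : ℤ), |x i - q| ≤ 1 / 2 → |x i - q| < 1 / 2 := by
    intro i q h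
    refine lt_of_le_of_ne h fun heq => ?_
    rcases abs_eq (by norm_num : (0 : ℝ) ≤ 1 / 2) |>.1 heq with h1 | h1
    · exact hne i (16 * q + 8) (by push_cast; linarith)
    · exact hne i (16 * q - 8) (by push_cast; linarith)
  rcases mem_Tr.1 h with ⟨h1, i, h2⟩ | h1 | h1 | h1
  · left
    have hr : rd x = z := rd_eq fun i => hstrict i _ (h1 i)
    refine ⟨hr, fun hc => ?_⟩
    rw [hr] at hc
    have h3 : |x i - z i| = w i := le_antisymm (hc i) h2
    have h4 : ∃ m : ℤ, w i = (m : ℝ) / 16 := by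
      unfold w
      split_ifs
      · exact ⟨1, by norm_num⟩
      · exact ⟨2, by norm_num⟩
    obtain ⟨m, hm⟩ := h4
    have hw := w_pos i
    rcases abs_eq (by linarith : (0 : ℝ) ≤ w i) |>.1 h3 with h5 | h5
    · exact hne i (16 * z i + m) (by push_cast; linarith)
    · exact hne i (16 * z i - m) (by push_cast; linarith)
  · right; left
    have hr : rd x = z + e1 := by
      refine rd_eq fun i => ?_
      have := h1 i
      have h3 := w_le i
      rw [Pi.add_apply]
      linarith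
    refine ⟨hr, ?_⟩
    rw [hr]
    exact fun i => h1 i
  · right; right; left
    exact rd_eq fun i => hstrict i _ (h1 i)
  · right; right; right
    exact rd_eq fun i => hstrict i _ (h1 i)

lemma e1_zero : (e1 : Fin n → ℤ) 0 = 1 := by simp [e1]

/-- close translates have disjoint interiors. -/
lemma disjoint_Tr {K : ℕ} {z z' : Fin n → ℤ} (hne : z ≠ z') (hK : |z 0 - z' 0| < K) :
    Disjoint (interior (Tr K z)) (interior (Tr K z')) := by
  rw [Set.disjoint_left]
  intro p hp hp'
  obtain ⟨x, ⟨hx1, hx2⟩, hxg⟩ := dense_gen.inter_open_nonempty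
    (interior (Tr K z) ∩ interior (Tr K z')) (isOpen_interior.inter isOpen_interior) ⟨p, hp, hp'⟩
  have h1 := gen_mem hxg (interior_subset hx1)
  have h2 := gen_mem hxg (interior_subset hx2)
  rw [abs_lt] at hK
  have key : ∀ a b : ℤ, (rd x = fun i => z i + a * e1 i) → (rd x = fun i => z' i + b * e1 i) →
      (a = b ∨ (a - b ≥ K ∨ b - a ≥ K)) → False := by
    intro a b ha hb hab
    rw [ha] at hb
    rcases hab with rfl | hab
    · apply hne
      funext i
      have h' : z i + a * e1 i = z' i + a * e1 i := congrFun hb i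
      linarith
    · have := congrFun hb 0
      simp only [e1_zero, mul_one] at this
      rcases hab with h | h <;> linarith [hK.1, hK.2]
  have hform : ∀ {y : Fin n → ℤ}, ((rd x = y ∧ ¬ inCav x (rd x)) ∨ (rd x = y + e1 ∧ inCav x (rd x)) ∨
      (rd x = fun i => y i - K * e1 i) ∨ (rd x = fun i => y i + (K + 1) * e1 i)) →
      ((rd x = fun i => y i + (0 : ℤ) * e1 i) ∧ ¬ inCav x (rd x)) ∨
      ((rd x = fun i => y i + (1 : ℤ) * e1 i) ∧ inCav x (rd x)) ∨
      (rd x = fun i => y i + (-(K : ℤ)) * e1 i) ∨ (rd x = fun i => y i + ((K : ℤ) + 1) * e1 i) := by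
    intro y h
    rcases h with ⟨h, h'⟩ | ⟨h, h'⟩ | h | h
    · exact Or.inl ⟨by rw [h]; simp, h'⟩
    · exact Or.inr (Or.inl ⟨by rw [h]; funext i; simp, h'⟩)
    · exact Or.inr (Or.inr (Or.inl (by rw [h]; funext i; ring)))
    · exact Or.inr (Or.inr (Or.inr h))
  have hKn : (0 : ℤ) ≤ K := Int.natCast_nonneg K
  rcases hform h1 with ⟨a, a'⟩ | ⟨a, a'⟩ | a | a <;> rcases hform h2 with ⟨b, b'⟩ | ⟨b, b'⟩ | b | b
  all_goals first
    | exact absurd b' a'
    | exact absurd a' b'
    | (refine key _ _ a b ?_; omega)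

lemma mem_forms {K : ℕ} {z : Fin n → ℤ} {x : E n} (h : x ∈ Tr K z) :
    ∃ a : ℤ, (∀ i, |x i - ((z i + a * e1 i : ℤ) : ℝ)| ≤ 1 / 2) ∧
      (a = 0 ∨ a = -(K : ℤ) ∨ a = K + 1 ∨ (a = 1 ∧ |x 0 - ((z 0 + 1 : ℤ) : ℝ)| ≤ 1 / 8)) := by
  rcases mem_Tr.1 h with ⟨h1, -⟩ | h1 | h1 | h1
  · refine ⟨0, fun i => ?_, Or.inl rfl⟩
    have := h1 i
    rwa [zero_mul, add_zero]
  · refine ⟨1, fun i => ?_, Or.inr (Or.inr (Or.inr ⟨rfl, ?_⟩))⟩
    · have := h1 i
      have h2 := w_le i
      rw [one_mul]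
      linarith
    · have := h1 0
      have h2 := w_le (0 : Fin n)
      rw [e1_zero] at this
      linarith
  · refine ⟨-(K : ℤ), fun i => ?_, Or.inr (Or.inl rfl)⟩
    have := h1 i
    rwa [neg_mul, ← sub_eq_add_neg]
  · exact ⟨(K : ℤ) + 1, fun i => h1 i, Or.inr (Or.inr (Or.inl rfl))⟩

lemma int_close {x : ℝ} {c d : ℤ} {r s : ℝ} (hrs : r + s < 2) (h1 : |x - c| ≤ r)
    (h2 : |x - d| ≤ s) : |c - d| ≤ 1 := by
  rw [abs_le] at h1 h2 ⊢
  have h3 : (c : ℝ) - d < 2 := by linarith [h1.1, h2.2]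
  have h4 : -2 < (c : ℝ) - d := by linarith [h1.2, h2.1]
  have h5 : c - d < 2 := by exact_mod_cast h3
  have h6 : -2 < c - d := by exact_mod_cast h4
  omega

lemma int_eq {x : ℝ} {c d : ℤ} {r s : ℝ} (hrs : r + s < 1) (h1 : |x - c| ≤ r)
    (h2 : |x - d| ≤ s) : c = d := by
  rw [abs_le] at h1 h2
  have h3 : (c : ℝ) - d < 1 := by linarith [h1.1, h2.2]
  have h4 : -1 < (c : ℝ) - d := by linarith [h1.2, h2.1]
  have h5 : c - d < 1 := by exact_mod_cast h3
  have h6 : -1 < c - d := by exact_mod_cast h4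
  omega

/-- touching translates are neighbours. -/
lemma touch {K : ℕ} {z z' : Fin n → ℤ} (hK : |z 0 - z' 0| + 2 ≤ K)
    (h : (Tr K z ∩ Tr K z' : Set (E n)).Nonempty) (i : Fin n) : |z i - z' i| ≤ 1 := by
  obtain ⟨x, hx, hx'⟩ := h
  have hK' : |z 0 - z' 0| ≤ (K : ℤ) - 2 := by linarith
  rw [abs_le] at hK'
  obtain ⟨a, ha, ha'⟩ := mem_forms hx
  obtain ⟨b, hb, hb'⟩ := mem_forms hx'
  by_cases hi : i = 0
  · subst hi
    have h3 := ha 0
    have h4 := hb 0
    rw [e1_zero, mul_one] at h3 h4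
    have h5 := int_close (by norm_num) h3 h4
    rw [abs_le] at h5 ⊢
    rcases ha' with rfl | rfl | rfl | ⟨rfl, ha'⟩ <;> rcases hb' with rfl | rfl | rfl | ⟨rfl, hb'⟩
    all_goals first
      | omega
      | (have h6 := int_eq (by norm_num) h3 hb'; omega)
      | (have h6 := int_eq (by norm_num) ha' h4; omega)
  · have he : (e1 : Fin n → ℤ) i = 0 := by simp [e1, hi]
    have h3 := ha i
    have h4 := hb i
    rw [he, mul_zero, add_zero] at h3 h4
    exact int_close (by norm_num) h3 h4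

lemma tile_nonempty (K : ℕ) : (Tile K : Set (E n)).Nonempty :=
  (isBody_tile K).2.1.mono interior_subset

/-- neighbours touch. -/
lemma adj_nonempty {K : ℕ} {z z' : Fin n → ℤ} (h : ∀ i, |z i - z' i| ≤ 1) :
    (Tr K z ∩ Tr K z' : Set (E n)).Nonempty := by
  by_cases hz : z = z'
  · subst hz
    rw [inter_self, Tr_eq_image]
    exact (tile_nonempty K).image _
  · obtain ⟨i, hi⟩ := Function.ne_iff.1 hz
    refine ⟨WithLp.toLp 2 fun i => ((z i : ℝ) + z' i) / 2, mem_Tr.2 (Or.inl ⟨fun j => ?_, i, ?_⟩),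
      mem_Tr.2 (Or.inl ⟨fun j => ?_, i, ?_⟩)⟩
    · have h1 := abs_le.1 (h j)
      have h2 : (-1 : ℝ) ≤ z j - z' j := by exact_mod_cast h1.1
      have h3 : (z j : ℝ) - z' j ≤ 1 := by exact_mod_cast h1.2
      simp only
      rw [abs_le]
      constructor <;> linarith
    · have h1 := abs_le.1 (h i)
      have h4 := w_le i
      simp only
      have h5 : z i - z' i = 1 ∨ z i - z' i = -1 := by omega
      rcases h5 with h5 | h5
      · have h6 : (z i : ℝ) - z' i = 1 := by exact_mod_cast h5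
        rw [le_abs]; right; linarith
      · have h6 : (z i : ℝ) - z' i = -1 := by exact_mod_cast h5
        rw [le_abs]; left; linarith
    · have h1 := abs_le.1 (h j)
      have h2 : (-1 : ℝ) ≤ z j - z' j := by exact_mod_cast h1.1
      have h3 : (z j : ℝ) - z' j ≤ 1 := by exact_mod_cast h1.2
      simp only
      rw [abs_le]
      constructor <;> linarith
    · have h1 := abs_le.1 (h i)
      have h4 := w_le i
      simp only
      have h5 : z i - z' i = 1 ∨ z i - z' i = -1 := by omega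
      rcases h5 with h5 | h5
      · have h6 : (z i : ℝ) - z' i = 1 := by exact_mod_cast h5
        rw [le_abs]; left; linarith
      · have h6 : (z i : ℝ) - z' i = -1 := by exact_mod_cast h5
        rw [le_abs]; right; linarith

/-- integer vectors of sup norm at most `j` -/
def BZ (n : ℕ) (j : ℕ) : Set (Fin n → ℤ) := {z | ∀ i, |z i| ≤ j}

lemma BZ_of_close {j : ℕ} {z r : Fin n → ℤ} (hz : z ∈ BZ n j) (h : ∀ i, |r i - z i| ≤ 1) :
    r ∈ BZ n (j + 1) := by
  intro i
  have h1 := hz i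
  have h2 := h i
  rw [abs_le] at h1 h2 ⊢
  push_cast
  constructor <;> linarith [h1.1, h1.2, h2.1, h2.2]

/-- The translates by vectors of norm at most `j + 1` surround those of norm at most `j`. -/
lemma Tr_subset_interior {K j : ℕ} {z : Fin n → ℤ} (hz : z ∈ BZ n j) :
    (Tr K z : Set (E n)) ⊆ interior (⋃ z' ∈ BZ n (j + 1), Tr K z') := by
  intro x hx
  rw [mem_interior]
  refine ⟨{y : E n | ∀ i, |y i - x i| < 1 / 16}, ?_, ?_, ?_⟩
  · intro y hy
    have hyr := rd_le y
    have hcav : ∀ c : Fin n → ℤ, rd y = c → (∃ i, w i ≤ |y i - c i|) → y ∈ Tr K c := by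
      intro c hc h
      subst hc
      exact mem_Tr.2 (Or.inl ⟨hyr, h⟩)
    have hkey : ∀ c : Fin n → ℤ, ¬ (∃ i, w i ≤ |y i - c i|) → y ∈ Tr K (c - e1) := by
      intro c h
      push Not at h
      refine mem_Tr.2 (Or.inr (Or.inl fun i => ?_))
      have := (h i).le
      simpa using this
    have htri : ∀ (i : Fin n) (c r : ℝ), |x i - c| ≤ r → |y i - c| ≤ r + 1 / 16 := by
      intro i c r h
      have h1 := (hy i).le
      calc |y i - c| = |(y i - x i) + (x i - c)| := by ring_nf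
        _ ≤ |y i - x i| + |x i - c| := abs_add_le _ _
        _ ≤ r + 1 / 16 := by linarith
    have hcell : ∀ c : Fin n → ℤ, (∀ i, |x i - c i| ≤ 1 / 2) → ∀ i, |rd y i - c i| ≤ 1 := by
      intro c h i
      exact int_close (by norm_num) (hyr i) (htri i _ _ (h i))
    rcases mem_Tr.1 hx with ⟨h1, -⟩ | h1 | h1 | h1
    · have h2 := hcell z h1
      by_cases hc : ∃ i, w i ≤ |y i - rd y i|
      · exact mem_biUnion (BZ_of_close hz h2) (hcav _ rfl hc)
      · have hrz : rd y = z := by
          push Not at hc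
          funext i
          have h3 := (hc i).le
          have h4 := w_le i
          exact int_eq (r := 1 / 8) (s := 1 / 2 + 1 / 16) (by norm_num) (by linarith)
            (htri i _ _ (h1 i))
        rw [hrz] at hc
        refine mem_biUnion (BZ_of_close hz fun i => ?_) (hkey z hc)
        rw [Pi.sub_apply, e1]
        split_ifs <;> simp
    · have hrz : rd y = z + e1 := by
        refine rd_eq fun i => ?_
        have h3 := htri i _ _ (h1 i)
        have h4 := w_le i
        rw [Pi.add_apply]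
        linarith
      by_cases hc : ∃ i, w i ≤ |y i - (((z + e1 : Fin n → ℤ) i : ℤ) : ℝ)|
      · refine mem_biUnion (BZ_of_close hz fun i => ?_) (hcav _ hrz hc)
        rw [Pi.add_apply, e1]
        split_ifs <;> simp
      · have := hkey _ hc
        rw [add_sub_cancel_right] at this
        exact mem_biUnion (BZ_of_close hz fun i => by simp) this
    · have h2 := hcell (fun i => z i - K * e1 i) h1
      refine mem_biUnion (x := fun i => rd y i + K * e1 i) (BZ_of_close hz fun i => ?_)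
        (mem_Tr.2 (Or.inr (Or.inr (Or.inl fun i => ?_))))
      · have := h2 i
        rwa [sub_sub_eq_add_sub] at this
      · simpa using hyr i
    · have h2 := hcell (fun i => z i + (K + 1) * e1 i) h1
      refine mem_biUnion (x := fun i => rd y i - (K + 1) * e1 i) (BZ_of_close hz fun i => ?_)
        (mem_Tr.2 (Or.inr (Or.inr (Or.inr fun i => ?_))))
      · have := h2 i
        rwa [← sub_sub, sub_right_comm] at this
      · simpa using hyr i
  · simp only [Set.ofPred_forall]
    exact isOpen_iInter_of_finite fun i => isOpen_lt (by fun_prop) continuous_const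
  · intro i
    simp

end Pool.Agent.H124R2.Heesch
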